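import Pool.Agent.H10.RotorB

/-!
A tree is encoded by `b : List ℕ → ℕ`.  The non-root vertices are lists: `[]` is the unique child
of the root, the children of `v` are `v ++ [k]` for `1 ≤ k ≤ b v`, and the parent of a nonempty
list is `v.dropLast`.  The root itself is `none`.  Lists that are not vertices are never visited.
-/

namespace Pool.Agent.Results.MP_4b601f_co.Closed
open Pool.Agent.H10.Rotor

/-- One step of the rotor walk; a particle that is back at the root stays there. -/
def step (b : List ℕ → ℕ) : Option (List ℕ) × (List ℕ → ℕ) → Option (List ℕ) × (List ℕ → ℕ)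
  | (none, r) => (none, r)
  | (some v, r) =>
    (if (r v + 1) % (b v + 1) = 0 then (if v = [] then none else some v.dropLast)
      else some (v ++ [(r v + 1) % (b v + 1)]),
     Function.update r v ((r v + 1) % (b v + 1)))

/-- Position and rotors `t` steps after the particle entered the child of the root. -/
def walk (b r : List ℕ → ℕ) (t : ℕ) : Option (List ℕ) × (List ℕ → ℕ) :=
  (step b)^[t] (some [], r)

/-- The particle never returns to the root. -/
def Escapes (b r : List ℕ → ℕ) : Prop := ∀ t, (walk b r t).1 ≠ none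

/-- `r'` is the final (limiting) rotor configuration left by the particle. -/
def Lim (b r r' : List ℕ → ℕ) : Prop := ∀ v, ∃ T, ∀ t, T ≤ t → (walk b r t).2 v = r' v

/-- `e` is the escape sequence of the configuration `r` on the tree `b`. -/
def IsEsc (b r : List ℕ → ℕ) (e : ℕ → Bool) : Prop :=
  ∃ R : ℕ → List ℕ → ℕ, R 0 = r ∧
    ∀ n, Lim b (R n) (R (n + 1)) ∧ (e n = true ↔ Escapes b (R n))

def emb (k : ℕ) (C s : Cfg) : Cfg
  | [] => C []
  | j :: l => if j = k then s l else C (j :: l)

def lift (k : ℕ) (C : Cfg) (x : Option (List ℕ) × Cfg) : Option (List ℕ) × Cfg :=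
  (some (match x.1 with | none => [] | some u => k :: u), emb k C x.2)

lemma emb_self (k : ℕ) (C : Cfg) : emb k C (sub k C) = C := by
  funext l
  cases l with
  | nil => rfl
  | cons j l =>
    rw [emb]
    split_ifs with h
    · subst h; rfl
    · rfl

lemma emb_update (k : ℕ) (C s : Cfg) (u : List ℕ) (c : ℕ) :
    Function.update (emb k C s) (k :: u) c = emb k C (Function.update s u c) := by
  funext l
  cases l with
  | nil => rw [Function.update_of_ne (by simp)]; rfl
  | cons j l =>
    by_cases h : j = k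
    · subst h
      by_cases h2 : l = u
      · subst h2; simp [emb]
      · rw [Function.update_of_ne (by simp [h2])]; simp [emb, Function.update_of_ne h2]
    · rw [Function.update_of_ne (by simp [h])]; simp [emb, h]

lemma step_lift (b : Cfg) (k : ℕ) (C s : Cfg) (u : List ℕ) :
    step b (lift k C (some u, s)) = lift k C (step (sub k b) (some u, s)) := by
  have he : emb k C s (k :: u) = s u := by simp [emb]
  have hb : sub k b u = b (k :: u) := rfl
  simp only [lift, step, he, hb, emb_update]
  congr 1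
  by_cases h1 : (s u + 1) % (b (k :: u) + 1) = 0
  · by_cases h4 : u = []
    · subst h4; simp [h1]
    · simp [h1, h4, List.dropLast_cons_of_ne_nil h4]
  · simp [h1]

lemma walk_succ (b r : Cfg) (t : ℕ) : walk b r (t + 1) = step b (walk b r t) :=
  Function.iterate_succ_apply' _ _ _

lemma walk_add (b r : Cfg) (T t : ℕ) : walk b r (T + t) = (step b)^[t] (walk b r T) := by
  unfold walk
  rw [Nat.add_comm, Function.iterate_add_apply]

lemma walk_stay {b r s : Cfg} {T : ℕ} (h : walk b r T = (none, s)) (t : ℕ) (ht : T ≤ t) :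
    walk b r t = (none, s) := by
  induction t, ht using Nat.le_induction with
  | base => exact h
  | succ t _ ih => rw [walk_succ, ih]; rfl

lemma iter_lift (b : Cfg) (k : ℕ) (C s : Cfg) (t : ℕ)
    (h : ∀ t', t' < t → (walk (sub k b) s t').1 ≠ none) :
    (step b)^[t] (lift k C (some [], s)) = lift k C (walk (sub k b) s t) := by
  induction t with
  | zero => rfl
  | succ t ih =>
    rw [Function.iterate_succ_apply', ih fun t' h' => h t' (by omega), walk_succ]
    have := h t (by omega)
    generalize walk (sub k b) s t = x at this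
    obtain ⟨_ | u, s'⟩ := x
    · exact absurd rfl this
    · exact step_lift b k C s' u

lemma first_time {b r s : Cfg} {T : ℕ} (h : walk b r T = (none, s)) :
    ∃ T', walk b r T' = (none, s) ∧ ∀ t, t < T' → (walk b r t).1 ≠ none := by
  have hex : ∃ t, (walk b r t).1 = none := ⟨T, by rw [h]⟩
  refine ⟨Nat.find hex, ?_, fun t ht => Nat.find_min hex ht⟩
  have h1 : walk b r (Nat.find hex) = (none, (walk b r (Nat.find hex)).2) :=
    Prod.ext (Nat.find_spec hex) rfl
  have h2 := walk_stay h1 T (Nat.find_min' hex (by rw [h]))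
  rw [h1, ← h2, h]

noncomputable def P (b r : Cfg) (j : ℕ) : Cfg
  | [] => j
  | k :: l => if r [] < k ∧ k ≤ j then N (sub k b) (sub k r) l else r (k :: l)

lemma enter (b C : Cfg) (h : C [] + 1 ≤ b []) : step b (some [], C) =
    lift (C [] + 1) (Function.update C [] (C [] + 1)) (some [], sub (C [] + 1) C) := by
  have h1 : (C [] + 1) % (b [] + 1) = C [] + 1 := Nat.mod_eq_of_lt (by omega)
  have h2 : sub (C [] + 1) C = sub (C [] + 1) (Function.update C [] (C [] + 1)) := by
    funext l
    simp [sub]
  rw [h2]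
  simp only [step, lift, h1, emb_self]
  simp

lemma prog (b r : Cfg) (j : ℕ) (h1 : r [] ≤ j) (h2 : j ≤ b [])
    (h : ∀ k, r [] < k → k ≤ j → ∃ T, walk (sub k b) (sub k r) T = (none, N (sub k b) (sub k r))) :
    ∃ T, walk b r T = (some [], P b r j) := by
  induction j, h1 using Nat.le_induction with
  | base =>
    refine ⟨0, Prod.ext rfl ?_⟩
    funext l
    cases l with
    | nil => rfl
    | cons k l => show r (k :: l) = P b r (r []) (k :: l); rw [P, if_neg (by omega)]
  | succ j hj ih =>
    obtain ⟨T, hT⟩ := ih (by omega) fun k h3 h4 => h k h3 (by omega)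
    obtain ⟨T0, hT0⟩ := h (j + 1) (by omega) le_rfl
    obtain ⟨T1, hT1, hT2⟩ := first_time hT0
    refine ⟨T + 1 + T1, ?_⟩
    have hs : sub (j + 1) (P b r j) = sub (j + 1) r := by
      funext l
      show P b r j ((j + 1) :: l) = _
      rw [P, if_neg (by omega)]; rfl
    have he := enter b (P b r j) h2
    have hP : P b r j [] = j := rfl
    rw [hP, hs] at he
    rw [walk_add, walk_succ, hT, he, iter_lift _ _ _ _ _ hT2, hT1]
    refine Prod.ext rfl ?_
    funext l
    cases l with
    | nil => simp [lift, emb, P]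
    | cons k l =>
      simp only [lift, emb, P]
      by_cases h3 : k = j + 1
      · subst h3; rw [if_pos rfl, if_pos ⟨by omega, le_rfl⟩]
      · rw [if_neg h3, Function.update_of_ne (by simp), P]
        exact if_congr (by omega) rfl rfl

lemma walk_ret {b r : Cfg} (h : Ret b r) : (∀ v, r v ≤ b v) → ∃ T, walk b r T = (none, N b r) := by
  induction h with
  | mk b r h ih =>
    intro hr
    have hR : Ret b r := Ret.mk b r h
    obtain ⟨T, hT⟩ := prog b r (b []) (hr []) le_rfl fun k h1 h2 => ih k h1 h2 fun v => hr _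
    refine ⟨T + 1, ?_⟩
    rw [walk_succ, hT]
    have hP : P b r (b []) [] = b [] := rfl
    simp only [step, hP, Nat.mod_self, if_true]
    refine Prod.ext rfl ?_
    funext l
    cases l with
    | nil => simp [N, k0_ret hR]
    | cons k l =>
      show Function.update (P b r (b [])) [] 0 (k :: l) = N b r (k :: l)
      rw [Function.update_of_ne (by simp), P, N]
      by_cases hv : vis b r k
      · rw [if_pos hv, if_pos ((vis_ret hR k).1 hv)]
      · rw [if_neg hv, if_neg fun h' => hv ((vis_ret hR k).2 h')]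

lemma walk_esc {b r : Cfg} (h : ¬ Ret b r) (hr : ∀ v, r v ≤ b v) : ∃ T C,
    walk b r (T + 1) = lift (k0 b r) C (some [], sub (k0 b r) r) ∧ C [] = k0 b r ∧
      ∀ k l, k ≠ k0 b r → C (k :: l) = N b r (k :: l) := by
  obtain ⟨h1, h2, -, h4⟩ := k0_spec h
  obtain ⟨j, hj⟩ : ∃ j, k0 b r = j + 1 := ⟨k0 b r - 1, by omega⟩
  obtain ⟨T, hT⟩ := prog b r j (by omega) (by omega) fun k h5 h6 =>
    walk_ret (h4 k h5 (by omega)) fun v => hr _
  have hs : sub (j + 1) (P b r j) = sub (j + 1) r := by
    funext l
    show P b r j ((j + 1) :: l) = _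
    rw [P, if_neg (by omega)]; rfl
  have hP : P b r j [] = j := rfl
  have he := enter b (P b r j) (by rw [hP]; omega)
  rw [hP, hs] at he
  refine ⟨T, Function.update (P b r j) [] (j + 1), by rw [walk_succ, hT, he, hj], by simp [hj],
    fun k l hk => ?_⟩
  rw [Function.update_of_ne (by simp), P, N]
  by_cases hv : vis b r k
  · have := (vis_esc h k).1 hv
    rw [if_pos hv, if_pos (by omega)]
  · rw [if_neg hv, if_neg fun h' => hv ((vis_esc h k).2 (by omega))]

lemma esc_of_not_ret (t : ℕ) : ∀ b r : Cfg, ¬ Ret b r → (∀ v, r v ≤ b v) →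
    (walk b r t).1 ≠ none := by
  induction t using Nat.strong_induction_on with
  | _ t ih =>
    intro b r h hr h0
    obtain ⟨T, C, hT, -, -⟩ := walk_esc h hr
    by_cases ht : t ≤ T + 1
    · have := walk_stay (Prod.ext h0 rfl : walk b r t = (none, (walk b r t).2)) _ ht
      rw [hT] at this
      simp [lift] at this
    · obtain ⟨s, rfl⟩ : ∃ s, t = T + 1 + s := ⟨t - (T + 1), by omega⟩
      rw [walk_add, hT, iter_lift _ _ _ _ _ fun t' h' =>
        ih t' (by omega) _ _ (k0_spec h).2.2.1 fun v => hr _] at h0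
      simp [lift] at h0

lemma esc_iff {b r : Cfg} (hr : ∀ v, r v ≤ b v) : Escapes b r ↔ ¬ Ret b r :=
  ⟨fun h h' => by obtain ⟨T, hT⟩ := walk_ret h' hr; exact h T (by rw [hT]),
    fun h t => esc_of_not_ret t b r h hr⟩

lemma lim_N (v : List ℕ) : ∀ b r : Cfg, (∀ v, r v ≤ b v) →
    ∃ T, ∀ t, T ≤ t → (walk b r t).2 v = N b r v := by
  induction v with
  | nil =>
    intro b r hr
    by_cases h : Ret b r
    · obtain ⟨T, hT⟩ := walk_ret h hr
      exact ⟨T, fun t ht => by rw [walk_stay hT t ht]⟩
    · obtain ⟨T, C, hT, h1, -⟩ := walk_esc h hr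
      refine ⟨T + 1, fun t ht => ?_⟩
      obtain ⟨s, rfl⟩ : ∃ s, t = T + 1 + s := ⟨t - (T + 1), by omega⟩
      rw [walk_add, hT, iter_lift _ _ _ _ _ fun t' _ =>
        esc_of_not_ret t' _ _ (k0_spec h).2.2.1 fun v => hr _]
      exact h1
  | cons k l ih =>
    intro b r hr
    by_cases h : Ret b r
    · obtain ⟨T, hT⟩ := walk_ret h hr
      exact ⟨T, fun t ht => by rw [walk_stay hT t ht]⟩
    · obtain ⟨T, C, hT, -, h2⟩ := walk_esc h hr
      obtain ⟨T', hT'⟩ := ih (sub (k0 b r) b) (sub (k0 b r) r) fun v => hr _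
      refine ⟨T + 1 + T', fun t ht => ?_⟩
      obtain ⟨s, rfl⟩ : ∃ s, t = T + 1 + s := ⟨t - (T + 1), by omega⟩
      rw [walk_add, hT, iter_lift _ _ _ _ _ fun t' _ =>
        esc_of_not_ret t' _ _ (k0_spec h).2.2.1 fun v => hr _]
      simp only [lift, emb]
      split_ifs with hk
      · subst hk
        rw [hT' s (by omega), N, if_pos ((vis_esc h _).2 ⟨(k0_spec h).1, le_rfl⟩)]
      · exact h2 k l hk

lemma isEsc_iff {b r : Cfg} (hr : ∀ v, r v ≤ b v) (e : ℕ → Bool) :
    IsEsc b r e ↔ ∀ n, (e n = true ↔ E b r n) := by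
  constructor
  · rintro ⟨R, h0, h⟩
    have hR : ∀ n, R n = (N b)^[n] r := by
      intro n
      induction n with
      | zero => exact h0
      | succ n ih =>
        funext v
        obtain ⟨T, hT⟩ := (h n).1 v
        obtain ⟨T', hT'⟩ := lim_N v b _ (iter_le hr n)
        rw [Function.iterate_succ_apply', ← hT (T + T') (by omega), ih, hT' _ (by omega)]
    intro n
    rw [(h n).2, hR, esc_iff (iter_le hr n)]
    rfl
  · intro h
    refine ⟨fun n => (N b)^[n] r, rfl, fun n => ⟨fun v => ?_, ?_⟩⟩
    · show ∃ T, ∀ t, T ≤ t → _ = (N b)^[n + 1] r v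
      rw [Function.iterate_succ_apply']
      exact lim_N v b _ (iter_le hr n)
    · rw [h n, esc_iff (iter_le hr n)]
      rfl

theorem result (b r : List ℕ → ℕ) (hr : ∀ v, r v ≤ b v) :
    (∃! e : ℕ → Bool, IsEsc b r e) ∧
      ∀ e e' : ℕ → Bool, IsEsc b r e → (∀ n, e' n ≤ e n) →
        ∃ r' : List ℕ → ℕ, (∀ v, r' v ≤ b v) ∧ IsEsc b r' e' := by
  classical
  refine ⟨⟨fun n => decide (E b r n), (isEsc_iff hr _).2 fun n => by simp, fun e he => ?_⟩, ?_⟩
  · funext n
    have := (isEsc_iff hr _).1 he n
    by_cases h : E b r n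
    · simp [h, this.2 h]
    · have h2 : e n ≠ true := fun h' => h (this.1 h')
      simp [h, h2]
  · intro e e' he hle
    obtain ⟨r', h1, h2⟩ := closure hr (fun n => e' n = true) fun n hn =>
      ((isEsc_iff hr _).1 he n).1 (by have := hle n; rw [hn] at this; exact top_le_iff.1 this)
    exact ⟨r', h1, (isEsc_iff h1 _).2 h2⟩

end Pool.Agent.Results.MP_4b601f_co.Closed
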